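import Mathlib
import Pool.Agent.Helper39.PDom
import Pool.Agent.Helper77.PDomUpper
import Pool.Agent.Helper19.Dom.Tour

set_option autoImplicit false

/-!
# MP_869403_co

The pairs `(r,p)` for which the upper directed `p`-domination number of `H(n,r)` is of order
`log n`: exactly those for which no tournament on `r` vertices has the Schütte property `S_p`
(every `p` vertices have a common out-neighbour). For all other pairs it is
`O(log n / log log n)`.
-/

namespace Pool.Agent.Results.MP_869403_co.Dichotomy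

open Pool.Agent.Helper39 Pool.Agent.Helper19.Dom

theorem theta_of_not {r p : ℕ} (hp : 1 ≤ p) (hpr : p < r) (hno : ¬ HasSchutte p r) :
    (fun n : ℕ => (GammaUp p n r : ℝ)) =Θ[Filter.atTop] (fun n : ℕ => Real.log (n : ℝ)) := by
  constructor
  · rw [Asymptotics.isBigO_iff]
    refine ⟨2 * r + r ^ 2, ?_⟩
    filter_upwards [Filter.eventually_ge_atTop 3] with n hn
    have hlog1 : 1 ≤ Real.log (n : ℝ) := by
      rw [Real.le_log_iff_exp_le (by positivity)]
      have h3 : (3 : ℝ) ≤ n := by exact_mod_cast hn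
      have := Real.exp_one_lt_d9
      linarith
    have h1 := Pool.Agent.Helper77.PDomTheta.GammaUp_le_log (n := n) (r := r) (p := p)
      (by omega) (by omega) (by omega)
    rw [Real.norm_of_nonneg (Nat.cast_nonneg _), Real.norm_of_nonneg (by linarith)]
    have hr0 : (0 : ℝ) ≤ r := Nat.cast_nonneg _
    nlinarith
  · rw [Asymptotics.isBigO_iff]
    refine ⟨Real.log 4, ?_⟩
    filter_upwards [Filter.eventually_ge_atTop (4 ^ 7)] with n hn
    have h1 := lower (n := n) hpr.le hno hn
    have hlog4 : 0 < Real.log 4 := Real.log_pos (by norm_num)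
    rw [div_le_iff₀ hlog4] at h1
    rw [Real.norm_of_nonneg (Nat.cast_nonneg _), Real.norm_of_nonneg (Real.log_natCast_nonneg n)]
    linarith

theorem bigO_of_has {r p : ℕ} (hpr : p < r) (h : HasSchutte p r) :
    (fun n : ℕ => (GammaUp p n r : ℝ)) =O[Filter.atTop]
      (fun n : ℕ => Real.log (n : ℝ) / Real.log (Real.log (n : ℝ))) := by
  obtain ⟨T, hT, hS⟩ := h
  exact GammaUp_isBigO hpr T hT hS

theorem not_theta_of_has {r p : ℕ} (hpr : p < r) (h : HasSchutte p r) :
    ¬ (fun n : ℕ => (GammaUp p n r : ℝ)) =Θ[Filter.atTop] (fun n : ℕ => Real.log (n : ℝ)) := by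
  intro hθ
  have h1 : (fun n : ℕ => Real.log (n : ℝ)) =O[Filter.atTop]
      (fun n : ℕ => Real.log (n : ℝ) / Real.log (Real.log (n : ℝ))) :=
    hθ.2.trans (bigO_of_has hpr h)
  have hlog : Filter.Tendsto (fun n : ℕ => Real.log (n : ℝ)) Filter.atTop Filter.atTop :=
    Real.tendsto_log_atTop.comp tendsto_natCast_atTop_atTop
  have hloglog : Filter.Tendsto (fun n : ℕ => Real.log (Real.log (n : ℝ)))
      Filter.atTop Filter.atTop := Real.tendsto_log_atTop.comp hlog
  obtain ⟨C, hC, hev⟩ := h1.exists_pos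
  rw [Asymptotics.isBigOWith_iff] at hev
  obtain ⟨n, hn1, hn2, hn3⟩ := (hev.and ((hlog.eventually_gt_atTop 1).and
    (hloglog.eventually_gt_atTop C))).exists
  have h0 : 0 < Real.log (Real.log (n : ℝ)) := Real.log_pos hn2
  rw [Real.norm_of_nonneg (by linarith), Real.norm_of_nonneg (by positivity),
    mul_div_assoc', le_div_iff₀ h0] at hn1
  nlinarith

/-- For `1 ≤ p < r` the upper directed `p`-domination number of `H(n,r)` is `Θ(log n)` if and
only if no tournament on `r` vertices has the property that every `p` vertices have a common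
out-neighbour; if such a tournament exists then it is `O(log n / log log n)`. Such a tournament
exists if and only if `r ≥ s(p)`, where `s(1) = 3`, `s(2) = 7`, `s(3) = 19` and
`(p+2) * 2^(p-1) - 1 ≤ s(p) ≤ 4^(max p 7)`. -/
theorem result (r p : ℕ) (hp : 1 ≤ p) (hpr : p < r) :
    (((fun n : ℕ => (GammaUp p n r : ℝ)) =Θ[Filter.atTop] (fun n : ℕ => Real.log (n : ℝ))) ↔
      ¬ HasSchutte p r) ∧
    (HasSchutte p r → (fun n : ℕ => (GammaUp p n r : ℝ)) =O[Filter.atTop]
      (fun n : ℕ => Real.log (n : ℝ) / Real.log (Real.log (n : ℝ)))) ∧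
    (HasSchutte p r → ∀ r' : ℕ, r ≤ r' → HasSchutte p r') ∧
    (p = 1 → (HasSchutte p r ↔ 3 ≤ r)) ∧
    (p = 2 → (HasSchutte p r ↔ 7 ≤ r)) ∧
    (p = 3 → (HasSchutte p r ↔ 19 ≤ r)) ∧
    (HasSchutte p r → (p + 2) * 2 ^ (p - 1) - 1 ≤ r) ∧
    (4 ^ (max p 7) ≤ r → HasSchutte p r) := by
  refine ⟨⟨fun h h2 => not_theta_of_has hpr h2 h, theta_of_not hp hpr⟩, bigO_of_has hpr,
    fun h r' hr' => h.mono hpr.le (by omega) hr', ?_, ?_, ?_, ?_, hasSchutte_large⟩
  · rintro rfl
    exact hasSchutte_one_iff hpr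
  · rintro rfl
    exact hasSchutte_two_iff hpr
  · rintro rfl
    exact hasSchutte_three_iff hpr
  · intro h
    by_contra hcon
    exact not_hasSchutte hp hpr.le (by omega) h

end Pool.Agent.Results.MP_869403_co.Dichotomy
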