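import Pool.Agent.Helper39.Criteria

set_option autoImplicit false

/-!
Lower bounds for the upper directed p-domination number of the complete `r`-uniform hypergraph,
for all `1 ≤ p ≤ r - 1`.
-/

namespace Pool.Agent.Results.MP_869403_co.LowerAll

open Filter Pool.Agent.Helper39

/-- Let `1 ≤ p ≤ r - 1` and `g ≥ 2`, and suppose that every digraph on `r` vertices without closed
walks of length at most `g` has `p` vertices with no common out-neighbour outside them. Then
`Γ_p(H(n,r)) ≥ c (log n)^(1/(g-1))` for some `c > 0` and all large `n`. The hypothesis holds if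
`r ≤ g`, and also if `r + 1 < 2^(K+1)` or `r + 1 < 2^(K-1) (K+2)`, where `K = p^⌊g/2⌋`. -/
theorem result (p r g : ℕ) (hp : 1 ≤ p) (hpr : p < r) (hg : 2 ≤ g) :
    (Crit p r g → ∃ c : ℝ, 0 < c ∧ ∀ᶠ n : ℕ in atTop,
      c * (Real.log n) ^ ((1 : ℝ) / ((g - 1 : ℕ) : ℝ)) ≤ (GammaUp p n r : ℝ)) ∧
    (r ≤ g ∨ r + 1 < 2 ^ (p ^ (g / 2) + 1) ∨ r + 1 < 2 ^ (p ^ (g / 2) - 1) * (p ^ (g / 2) + 2) →
      Crit p r g) := by
  constructor
  · intro hc
    obtain ⟨G, rfl⟩ : ∃ G, g = G + 1 := ⟨g - 1, by omega⟩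
    exact lower_asymptotic (by omega) hc
  · rintro (h | h | h)
    · exact crit_of_le hp hpr.le h
    · exact crit_of_pow (j := g / 2) hp hpr.le (by omega) (by omega) (Or.inl h)
    · exact crit_of_pow (j := g / 2) hp hpr.le (by omega) (by omega) (Or.inr h)

end Pool.Agent.Results.MP_869403_co.LowerAll
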