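import Pool.Agent.Helper82.PD.Lp
import Pool.Agent.Helper82.PD.Loc

set_option autoImplicit false

/-!
Lower bounds with exponent `1 / (2 j)` for the upper directed p-domination number of the complete
`r`-uniform hypergraph.
-/

namespace Pool.Agent.Results.MP_869403_co.LowerOdd

open Filter Pool.Agent.Helper39 Pool.Agent.Helper82.PD

/-- Let `1 ≤ p < r` and `j ≥ 1`. If `r t ^ (p ^ (j+1)) < 1` for some `t > 0` with
`t + t ^ p ≥ 1` (in particular if `r ^ 2 < p ^ (p ^ j)`), then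
`Γ_p(H(n,r)) ≥ c (log n) ^ (1 / (2 j))` for some `c > 0` and all large `n`. The same holds for
`j = 1` if `p = 2`, `r ≤ 12`, or `p = 3`, `r ≤ 37`, or `p = 4`, `r ≤ 173`. -/
theorem result (p r j : ℕ) (hp : 1 ≤ p) (hpr : p < r) (hj : 1 ≤ j)
    (h : (∃ t : ℝ, 0 < t ∧ 1 ≤ t + t ^ p ∧ (r : ℝ) * t ^ (p ^ (j + 1)) < 1) ∨
      r ^ 2 < p ^ (p ^ j) ∨
      (j = 1 ∧ ((p = 2 ∧ r ≤ 12) ∨ (p = 3 ∧ r ≤ 37) ∨ (p = 4 ∧ r ≤ 173)))) :
    ∃ c : ℝ, 0 < c ∧ ∀ᶠ n : ℕ in atTop,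
      c * (Real.log n) ^ ((1 : ℝ) / ((2 * j : ℕ) : ℝ)) ≤ (GammaUp p n r : ℝ) := by
  have key : Crit p r (2 * j + 1) := by
    rcases h with ⟨t, ht, h1, h2⟩ | h | ⟨rfl, h⟩
    · exact crit_odd hp hpr.le t ht h1 h2
    · exact crit_odd_sq hp hpr.le h
    · rcases h with ⟨rfl, h⟩ | ⟨rfl, h⟩ | ⟨rfl, h⟩
      · exact crit_of_need (by norm_num) hpr.le need_two (by omega)
      · exact crit_of_need (by norm_num) hpr.le need_three (by omega)
      · refine crit_odd hp hpr.le (7245 / 10000) (by norm_num) (by norm_num) ?_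
        have h1 : (r : ℝ) ≤ 173 := by exact_mod_cast h
        have h2 : (173 : ℝ) * (7245 / 10000) ^ (4 ^ (1 + 1)) < 1 := by norm_num
        refine lt_of_le_of_lt (mul_le_mul_of_nonneg_right h1 (by positivity)) h2
  exact lower_asymptotic (by omega) key

end Pool.Agent.Results.MP_869403_co.LowerOdd
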