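import Pool.Agent.Helper39.UpperAsym

set_option autoImplicit false

/-!
Upper bounds for the upper directed 1-domination number of the complete `r`-uniform hypergraph.
-/

namespace Pool.Agent.Results.MP_869403_co.UpperOne

open Filter Asymptotics Pool.Agent.Helper39

/-- For every fixed `r ≥ 3`, with `j = ⌊r / 2⌋`, the upper directed 1-domination number of
`H(n,r)` is `O((log n)^(1/j))`, and if `r` is odd it is even `O((log n / log log n)^(1/j))`. -/
theorem result (r : ℕ) (hr : 3 ≤ r) :
    ((fun n : ℕ => (GammaUp 1 n r : ℝ)) =O[atTop]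
      fun n : ℕ => (Real.log n) ^ ((1 : ℝ) / ((r / 2 : ℕ) : ℝ))) ∧
    (Odd r → (fun n : ℕ => (GammaUp 1 n r : ℝ)) =O[atTop]
      fun n : ℕ => (Real.log n / Real.log (Real.log n)) ^ ((1 : ℝ) / ((r / 2 : ℕ) : ℝ))) := by
  refine ⟨upper_even_isBigO (j := r / 2) (by omega) (by omega), fun hodd => ?_⟩
  obtain ⟨m, rfl⟩ := hodd
  have h : (2 * m + 1) / 2 = m := by omega
  rw [h]
  exact upper_odd_isBigO (by omega) le_rfl

end Pool.Agent.Results.MP_869403_co.UpperOne
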